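import Pool.Agent.H69.Autom

/-!
MP_f19e53_lc, question Q1: the negated form holds with `α = 2`.
-/

set_option autoImplicit false

namespace Pool.Agent.Results.MP_f19e53_lc.DeltaTwo

open Pool.Agent.H69.Autom

/-- Any two computably enumerable sets that are `Δ^0_2`-automorphic are already
`Δ^0_1`-automorphic (in fact by the same automorphism, see `presentation_of_deltaTwo`). -/
theorem result (A B : CE) (h : AutomorphicBy IsDeltaTwo A B) : AutomorphicBy IsDeltaOne A B := by
  obtain ⟨Φ, hΦ, f, hf, hp⟩ := h
  exact ⟨Φ, hΦ, presentation_of_deltaTwo hf hp⟩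

end Pool.Agent.Results.MP_f19e53_lc.DeltaTwo
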